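import Mathlib

/-!
# Simultaneous exponential Riesz bases for two sets of equal size

Any two subsets of the same cardinality of a finite abelian group have a common exponential
Riesz basis.  The proof is a matroid intersection argument; the rank condition comes from
Parseval's identity.
-/

set_option autoImplicit false

open Finset Module

namespace Pool.Agent.Results.MP_b06300_an.SimultaneousBasis

/-! ### Matroid intersection for abstract rank functions -/

/-- Integer valued rank functions. -/
structure IsRk {α : Type*} [DecidableEq α] (r : Finset α → ℤ) : Prop where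
  zero : r ∅ = 0
  mono : ∀ A B, A ⊆ B → r A ≤ r B
  submod : ∀ A B, r (A ∪ B) + r (A ∩ B) ≤ r A + r B
  unit : ∀ s, r {s} ≤ 1

lemma IsRk.nonneg {α : Type*} [DecidableEq α] {r : Finset α → ℤ} (h : IsRk r) (A : Finset α) :
    0 ≤ r A := by
  rw [← h.zero]; exact h.mono _ _ (empty_subset _)

lemma IsRk.contract {α : Type*} [DecidableEq α] {r : Finset α → ℤ} (h : IsRk r) {s : α}
    (hs : r {s} = 1) : IsRk (fun U => r (insert s U) - 1) where
  zero := by simp [hs]
  mono A B hAB := by
    have := h.mono _ _ (insert_subset_insert s hAB)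
    linarith
  submod A B := by
    have h1 := h.submod (insert s A) (insert s B)
    have e1 : insert s A ∪ insert s B = insert s (A ∪ B) := by
      ext x; simp only [mem_union, mem_insert]; tauto
    have e2 : insert s A ∩ insert s B = insert s (A ∩ B) := by
      ext x; simp only [mem_inter, mem_insert]; tauto
    rw [e1, e2] at h1
    linarith
  unit t := by
    have h1 := h.submod {s} {t}
    have h2 : ({s} : Finset α) ∪ {t} = insert s {t} := by ext x; simp
    rw [h2] at h1
    have h3 := h.nonneg ({s} ∩ {t})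
    have h4 := h.unit t
    linarith

/-- **Matroid intersection**, in rank function form. -/
theorem matroid_inter {α : Type*} [DecidableEq α] (S : Finset α) :
    ∀ (r1 r2 : Finset α → ℤ), IsRk r1 → IsRk r2 → ∀ k : ℕ,
      (∀ U ⊆ S, (k : ℤ) ≤ r1 U + r2 (S \ U)) →
      ∃ I ⊆ S, I.card = k ∧ r1 I = k ∧ r2 I = k := by
  induction S using Finset.induction with
  | empty =>
    intro r1 r2 h1 h2 k hk
    have h := hk ∅ (Subset.refl _)
    simp only [sdiff_empty, h1.zero, h2.zero] at h
    have : k = 0 := by omega
    subst this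
    exact ⟨∅, Subset.refl _, by simp, by simp [h1.zero], by simp [h2.zero]⟩
  | insert s S hs ih =>
    intro r1 r2 h1 h2 k hk
    -- deletion
    by_cases hdel : ∀ U ⊆ S, (k : ℤ) ≤ r1 U + r2 (S \ U)
    · obtain ⟨I, hI, h⟩ := ih r1 r2 h1 h2 k hdel
      exact ⟨I, hI.trans (subset_insert _ _), h⟩
    push Not at hdel
    obtain ⟨A, hA, hAlt⟩ := hdel
    have hsA : s ∉ A := fun h => hs (hA h)
    have e1 : ∀ U ⊆ S, insert s S \ insert s U = S \ U := by
      intro U _
      ext x
      simp only [mem_sdiff, mem_insert]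
      constructor
      · rintro ⟨h | h, h'⟩
        · exact absurd (Or.inl h) h'
        · exact ⟨h, fun hx => h' (Or.inr hx)⟩
      · rintro ⟨h, h'⟩
        refine ⟨Or.inr h, ?_⟩
        rintro (rfl | hx)
        · exact hs h
        · exact h' hx
    have e2 : ∀ U ⊆ S, insert s S \ U = insert s (S \ U) := by
      intro U hU
      rw [insert_sdiff_of_notMem _ (fun h => hs (hU h))]
    -- ranks of `s`
    have hs1 : r1 {s} = 1 := by
      by_contra hne
      have h0 : r1 {s} = 0 := by
        have := h1.unit s
        have := h1.nonneg {s}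
        omega
      have h3 := hk (insert s A) (insert_subset_insert s hA)
      rw [e1 A hA] at h3
      have h4 := h1.submod {s} A
      have h5 : ({s} : Finset α) ∪ A = insert s A := by ext x; simp
      rw [h5] at h4
      have h6 := h1.nonneg ({s} ∩ A)
      linarith
    have hs2 : r2 {s} = 1 := by
      by_contra hne
      have h0 : r2 {s} = 0 := by
        have := h2.unit s
        have := h2.nonneg {s}
        omega
      have h3 := hk A (hA.trans (subset_insert _ _))
      rw [e2 A hA] at h3
      have h4 := h2.submod {s} (S \ A)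
      have h5 : ({s} : Finset α) ∪ (S \ A) = insert s (S \ A) := by ext x; simp
      rw [h5] at h4
      have h6 := h2.nonneg ({s} ∩ (S \ A))
      linarith
    -- contraction
    cases k with
    | zero =>
      exact ⟨∅, empty_subset _, by simp, by simp [h1.zero], by simp [h2.zero]⟩
    | succ k =>
      have hcon : ∀ U ⊆ S, (k : ℤ) ≤ (r1 (insert s U) - 1) + (r2 (insert s (S \ U)) - 1) := by
        by_contra hnot
        push Not at hnot
        obtain ⟨B, hB, hBlt⟩ := hnot
        have g1 := h1.submod A (insert s B)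
        have g2 := h2.submod (S \ A) (insert s (S \ B))
        have k1 := hk (A ∩ B) (inter_subset_left.trans (hA.trans (subset_insert _ _)))
        have k2 := hk (insert s (A ∪ B)) (insert_subset_insert s (union_subset hA hB))
        rw [e2 (A ∩ B) (inter_subset_left.trans hA)] at k1
        rw [e1 (A ∪ B) (union_subset hA hB)] at k2
        have f1 : A ∪ insert s B = insert s (A ∪ B) := by
          ext x; simp only [mem_union, mem_insert]; tauto
        have f2 : A ∩ insert s B = A ∩ B := by
          ext x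
          simp only [mem_inter, mem_insert]
          constructor
          · rintro ⟨h, h' | h'⟩
            · exact absurd (h' ▸ h) hsA
            · exact ⟨h, h'⟩
          · rintro ⟨h, h'⟩
            exact ⟨h, Or.inr h'⟩
        have f3 : (S \ A) ∪ insert s (S \ B) = insert s (S \ (A ∩ B)) := by
          ext x
          simp only [mem_union, mem_insert, mem_sdiff, mem_inter]
          tauto
        have f4 : (S \ A) ∩ insert s (S \ B) = S \ (A ∪ B) := by
          ext x
          simp only [mem_inter, mem_insert, mem_sdiff, mem_union]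
          constructor
          · rintro ⟨⟨h, h'⟩, h'' | ⟨_, h''⟩⟩
            · exact absurd (h'' ▸ h) hs
            · exact ⟨h, by tauto⟩
          · rintro ⟨h, h'⟩
            exact ⟨⟨h, by tauto⟩, Or.inr ⟨h, by tauto⟩⟩
        rw [f1, f2] at g1
        rw [f3, f4] at g2
        push_cast at *
        linarith
      obtain ⟨I, hI, hcard, hI1, hI2⟩ := ih _ _ (h1.contract hs1) (h2.contract hs2) k hcon
      have hsI : s ∉ I := fun h => hs (hI h)
      refine ⟨insert s I, insert_subset_insert s hI, ?_, ?_, ?_⟩
      · rw [card_insert_of_notMem hsI, hcard]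
      · push_cast; linarith
      · push_cast; linarith

/-! ### Rank functions of finite families of vectors -/

section Rank

variable {α V : Type*} [DecidableEq α] [NormedAddCommGroup V] [InnerProductSpace ℂ V]
  [FiniteDimensional ℂ V]

/-- The rank of the subfamily indexed by `A`. -/
noncomputable def rk (v : α → V) (A : Finset α) : ℤ :=
  (finrank ℂ (Submodule.span ℂ (v '' (A : Set α))) : ℤ)

lemma isRk_rk (v : α → V) : IsRk (rk v) where
  zero := by simp [rk]
  mono A B hAB := by
    unfold rk
    exact_mod_cast Submodule.finrank_mono (Submodule.span_mono (Set.image_mono (by exact_mod_cast hAB)))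
  submod A B := by
    unfold rk
    have h1 := Submodule.finrank_sup_add_finrank_inf_eq (Submodule.span ℂ (v '' (A : Set α)))
      (Submodule.span ℂ (v '' (B : Set α)))
    have h2 : Submodule.span ℂ (v '' ((A ∪ B : Finset α) : Set α))
        = Submodule.span ℂ (v '' (A : Set α)) ⊔ Submodule.span ℂ (v '' (B : Set α)) := by
      rw [coe_union, Set.image_union, Submodule.span_union]
    have h3 : finrank ℂ (Submodule.span ℂ (v '' ((A ∩ B : Finset α) : Set α)))
        ≤ finrank ℂ (Submodule.span ℂ (v '' (A : Set α)) ⊓ Submodule.span ℂ (v '' (B : Set α)) :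
          Submodule ℂ V) := by
      apply Submodule.finrank_mono
      apply le_inf
      · exact Submodule.span_mono (Set.image_mono (by exact_mod_cast inter_subset_left))
      · exact Submodule.span_mono (Set.image_mono (by exact_mod_cast inter_subset_right))
    rw [h2]
    have h4 : (finrank ℂ (Submodule.span ℂ (v '' (A : Set α)) ⊔ Submodule.span ℂ (v '' (B : Set α)) :
        Submodule ℂ V) : ℤ) + (finrank ℂ (Submodule.span ℂ (v '' (A : Set α)) ⊓
          Submodule.span ℂ (v '' (B : Set α)) : Submodule ℂ V) : ℤ)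
        = (finrank ℂ (Submodule.span ℂ (v '' (A : Set α))) : ℤ)
          + (finrank ℂ (Submodule.span ℂ (v '' (B : Set α))) : ℤ) := by exact_mod_cast h1
    have h5 : (finrank ℂ (Submodule.span ℂ (v '' ((A ∩ B : Finset α) : Set α))) : ℤ)
        ≤ (finrank ℂ (Submodule.span ℂ (v '' (A : Set α)) ⊓
          Submodule.span ℂ (v '' (B : Set α)) : Submodule ℂ V) : ℤ) := by exact_mod_cast h3
    linarith
  unit s := by
    unfold rk
    rw [coe_singleton, Set.image_singleton]
    exact_mod_cast finrank_span_le_card ({v s} : Set V)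

omit [DecidableEq α] in
/-- The trace bound: a tight frame of unit-type vectors has large rank. -/
lemma card_mul_le [Fintype α] (v : α → V) (k n : ℕ) (hk : ∀ a, ‖v a‖ ^ 2 = k)
    (hn : ∀ w : V, ∑ a, ‖inner ℂ w (v a)‖ ^ 2 = n * ‖w‖ ^ 2) (A : Finset α) :
    (A.card * k : ℝ) ≤ n * (rk v A : ℝ) := by
  set W := Submodule.span ℂ (v '' (A : Set α)) with hW
  set b := stdOrthonormalBasis ℂ W with hb
  have h1 : ∀ a ∈ A, (k : ℝ) = ∑ j, ‖inner ℂ ((b j : W) : V) (v a)‖ ^ 2 := by
    intro a ha
    have hmem : v a ∈ W := Submodule.subset_span ⟨a, by exact_mod_cast ha, rfl⟩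
    have h2 := b.sum_sq_norm_inner_right (⟨v a, hmem⟩ : W)
    rw [← hk a]
    have h3 : ‖(⟨v a, hmem⟩ : W)‖ = ‖v a‖ := rfl
    rw [h3] at h2
    rw [← h2]
    rfl
  have h2 : (A.card * k : ℝ) = ∑ a ∈ A, ∑ j, ‖inner ℂ ((b j : W) : V) (v a)‖ ^ 2 := by
    rw [← sum_congr rfl h1, sum_const, nsmul_eq_mul]
  rw [h2]
  calc ∑ a ∈ A, ∑ j, ‖inner ℂ ((b j : W) : V) (v a)‖ ^ 2
      ≤ ∑ a, ∑ j, ‖inner ℂ ((b j : W) : V) (v a)‖ ^ 2 :=
        sum_le_sum_of_subset_of_nonneg (subset_univ _)
          (fun a _ _ => sum_nonneg (fun j _ => by positivity))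
    _ = ∑ j, ∑ a, ‖inner ℂ ((b j : W) : V) (v a)‖ ^ 2 := sum_comm
    _ = ∑ j : Fin (finrank ℂ W), (n : ℝ) := by
        apply sum_congr rfl
        intro j _
        rw [hn]
        have : ‖((b j : W) : V)‖ = 1 := b.orthonormal.1 j
        rw [this]; ring
    _ = n * (rk v A : ℝ) := by
        rw [sum_const, nsmul_eq_mul, card_univ, Fintype.card_fin, mul_comm]
        unfold rk
        rw [← hW]
        push_cast
        rfl

end Rank

/-! ### Characters -/

variable {G : Type*} [AddCommGroup G] [Fintype G]

/-- `Λ` is a Riesz basis for `E`: it has as many elements as `E`, and the restrictions to `E` of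
its characters are linearly independent. -/
def IsRieszBasis (Λ : Finset (AddChar G ℂ)) (E : Finset G) : Prop :=
  Λ.card = E.card ∧ LinearIndependent ℂ (fun (χ : Λ) (x : E) => (χ : AddChar G ℂ) (x : G))

/-- The restriction of a character to `E`, as a vector of the Hilbert space `L²(E)`. -/
noncomputable def vec (E : Finset G) (χ : AddChar G ℂ) : EuclideanSpace ℂ E :=
  WithLp.toLp 2 (fun x => χ (x : G))

lemma norm_vec (E : Finset G) (χ : AddChar G ℂ) : ‖vec E χ‖ ^ 2 = (E.card : ℕ) := by
  rw [EuclideanSpace.norm_sq_eq]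
  simp [vec]

lemma parseval (E : Finset G) (w : EuclideanSpace ℂ E) :
    ∑ χ : AddChar G ℂ, ‖inner ℂ w (vec E χ)‖ ^ 2 = (Fintype.card G : ℕ) * ‖w‖ ^ 2 := by
  classical
  have key : ∀ χ : AddChar G ℂ, ((‖inner ℂ w (vec E χ)‖ ^ 2 : ℝ) : ℂ)
      = ∑ x : E, ∑ y : E, (starRingEnd ℂ (w x) * w y) * χ ((x : G) - (y : G)) := by
    intro χ
    have h1 : inner ℂ w (vec E χ) = ∑ x : E, starRingEnd ℂ (w x) * χ (x : G) := by
      rw [PiLp.inner_apply]
      apply sum_congr rfl
      intro x _
      rw [RCLike.inner_apply']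
      rfl
    have h2 : ((‖inner ℂ w (vec E χ)‖ ^ 2 : ℝ) : ℂ)
        = inner ℂ w (vec E χ) * starRingEnd ℂ (inner ℂ w (vec E χ)) := by
      rw [Complex.mul_conj, Complex.normSq_eq_norm_sq]
    rw [h2, h1, map_sum, sum_mul_sum]
    apply sum_congr rfl
    intro x _
    apply sum_congr rfl
    intro y _
    rw [map_mul, Complex.conj_conj, sub_eq_add_neg, AddChar.map_add_eq_mul, AddChar.map_neg_eq_conj]
    ring
  have h3 : ((∑ χ : AddChar G ℂ, ‖inner ℂ w (vec E χ)‖ ^ 2 : ℝ) : ℂ)
      = (((Fintype.card G : ℕ) * ‖w‖ ^ 2 : ℝ) : ℂ) := by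
    rw [Complex.ofReal_sum]
    simp_rw [key]
    rw [sum_comm]
    simp_rw [sum_comm (s := (univ : Finset (AddChar G ℂ)))]
    simp_rw [← mul_sum]
    simp_rw [AddChar.sum_apply_eq_ite]
    have h4 : ∀ x : E, ∑ y : E, starRingEnd ℂ (w x) * w y *
        (if (x : G) - (y : G) = 0 then (Fintype.card G : ℂ) else 0)
        = (Fintype.card G : ℂ) * ((‖w x‖ ^ 2 : ℝ) : ℂ) := by
      intro x
      rw [sum_eq_single x]
      · rw [sub_self, if_pos rfl, ← Complex.normSq_eq_conj_mul_self, Complex.normSq_eq_norm_sq]
        ring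
      · intro y _ hy
        rw [if_neg, mul_zero]
        intro h
        apply hy
        apply Subtype.ext
        exact (sub_eq_zero.1 h).symm
      · simp
    simp_rw [h4]
    rw [← mul_sum, EuclideanSpace.norm_sq_eq]
    push_cast
    rfl
  exact_mod_cast h3

omit [Fintype G] in
lemma isRieszBasis_of_rk [DecidableEq (AddChar G ℂ)] (E : Finset G) (Λ : Finset (AddChar G ℂ))
    (h : Λ.card = E.card) (hr : rk (vec E) Λ = (E.card : ℤ)) : IsRieszBasis Λ E := by
  refine ⟨h, ?_⟩
  have h1 : LinearIndependent ℂ (fun χ : Λ => vec E χ) := by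
    rw [linearIndependent_iff_card_eq_finrank_span]
    unfold rk at hr
    rw [Fintype.card_coe, h]
    have h2 : Set.range (fun χ : Λ => vec E χ) = vec E '' (Λ : Set (AddChar G ℂ)) := by
      ext z
      simp
    rw [Set.finrank, h2]
    exact_mod_cast hr.symm
  exact h1.map' (WithLp.linearEquiv 2 ℂ (E → ℂ)).toLinearMap (LinearEquiv.ker _)

/-- **Simultaneous exponential Riesz bases.** For every finite abelian group `G` (written
additively) and any two subsets `E₁, E₂` of the same cardinality there is a set `Λ` of characters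
which is a Riesz basis for `E₁` and for `E₂`. -/
theorem result {G : Type*} [AddCommGroup G] [Fintype G] (E₁ E₂ : Finset G)
    (hcard : E₁.card = E₂.card) :
    ∃ Λ : Finset (AddChar G ℂ), IsRieszBasis Λ E₁ ∧ IsRieszBasis Λ E₂ := by
  classical
  have hrank : ∀ U ⊆ (univ : Finset (AddChar G ℂ)),
      (E₁.card : ℤ) ≤ rk (vec E₁) U + rk (vec E₂) (univ \ U) := by
    intro U _
    have h1 := card_mul_le (vec E₁) E₁.card (Fintype.card G) (norm_vec E₁) (parseval E₁) U
    have h2 := card_mul_le (vec E₂) E₂.card (Fintype.card G) (norm_vec E₂) (parseval E₂) (univ \ U)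
    rw [← hcard] at h2
    have h3 : (U.card : ℝ) + ((univ \ U).card : ℝ) = Fintype.card G := by
      rw [card_sdiff_of_subset (subset_univ U), card_univ]
      have h4 : U.card ≤ Fintype.card (AddChar G ℂ) := card_le_univ U
      rw [Nat.cast_sub h4]
      have h5 : Fintype.card (AddChar G ℂ) = Fintype.card G := AddChar.card_eq
      rw [h5]; ring
    have hn : (0 : ℝ) < Fintype.card G := by exact_mod_cast Fintype.card_pos
    have h4 : (Fintype.card G : ℝ) * (E₁.card : ℝ)
        ≤ (Fintype.card G : ℝ) * ((rk (vec E₁) U : ℝ) + (rk (vec E₂) (univ \ U) : ℝ)) := by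
      have h6 : (Fintype.card G : ℝ) * (E₁.card : ℝ)
        = (U.card : ℝ) * E₁.card + ((univ \ U).card : ℝ) * E₁.card := by
        rw [← h3]; ring
      rw [h6]
      linarith
    have h5 := le_of_mul_le_mul_left h4 hn
    exact_mod_cast h5
  obtain ⟨Λ, -, hΛ, h1, h2⟩ := matroid_inter univ _ _ (isRk_rk (vec E₁)) (isRk_rk (vec E₂))
    E₁.card hrank
  refine ⟨Λ, isRieszBasis_of_rk E₁ Λ hΛ h1, isRieszBasis_of_rk E₂ Λ (hΛ.trans hcard) ?_⟩
  rw [h2, hcard]

end Pool.Agent.Results.MP_b06300_an.SimultaneousBasis
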